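import Pool.Agent.V5helper14.Sep.Stm

/-!
# Project SE, job PAIR: determinants with all the apex rows
-/

set_option autoImplicit false

namespace Pool.Agent.V5helper1.SE

open Matrix hiding row
open Pool.Agent.V5helper14.Hel Pool.Agent.V5helper14.Sep

theorem cyc_lt {K n : ℕ} (m : Fin K) : Fin.cycleRange (⟨K, by omega⟩ : Fin (K + n + 1))
    (Fin.castAdd (n + 1) m : Fin (K + n + 1)) = Fin.succ (Fin.castAdd n m) := by
  apply Fin.ext
  rw [Fin.coe_cycleRange_of_lt]
  · simp
  · rw [Fin.lt_def]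
    simp

theorem cyc_eq {K n : ℕ} : Fin.cycleRange (⟨K, by omega⟩ : Fin (K + n + 1))
    (Fin.natAdd K (0 : Fin (n + 1)) : Fin (K + n + 1)) = 0 := by
  have h : (Fin.natAdd K (0 : Fin (n + 1)) : Fin (K + n + 1)) = ⟨K, by omega⟩ := by
    apply Fin.ext
    simp
  rw [h, Fin.cycleRange_self]

theorem cyc_gt {K n : ℕ} (l : Fin n) : Fin.cycleRange (⟨K, by omega⟩ : Fin (K + n + 1))
    (Fin.natAdd K (Fin.succ l) : Fin (K + n + 1)) = Fin.succ (Fin.natAdd K l) := by
  rw [Fin.cycleRange_of_gt]
  · apply Fin.ext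
    simp [Fin.val_succ]
    omega
  · rw [Fin.lt_def]
    simp [Fin.val_succ]

/-- The determinant of a matrix with `K` apex rows. -/
theorem block (K n : ℕ) (M : Matrix (Fin (K + n + 1)) (Fin (K + n + 1)) ℝ) (a : Fin (n + 1) → ℝ)
    (b : Fin (n + 1) → Fin K → ℝ) (x : Fin (n + 1) → Fin n → ℝ)
    (h1 : ∀ m : Fin K, M (Fin.castAdd (n + 1) m : Fin (K + n + 1)) =
      (Fin.cons 1 (Fin.append (Pi.single m 1) 0 : Fin (K + n) → ℝ) : Fin (K + n + 1) → ℝ))
    (h2 : ∀ l : Fin (n + 1), M (Fin.natAdd K l : Fin (K + n + 1)) =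
      (Fin.cons (a l) (Fin.append (b l) (x l) : Fin (K + n) → ℝ) : Fin (K + n + 1) → ℝ)) :
    M.det = (-1) ^ K * Matrix.det (Matrix.of fun l : Fin (n + 1) =>
      (Fin.cons (a l - ∑ m, b l m) (x l) : Fin (n + 1) → ℝ)) := by
  classical
  let σ : Equiv.Perm (Fin (K + n + 1)) := Fin.cycleRange ⟨K, by omega⟩
  have hs : Equiv.Perm.sign σ = (-1) ^ K := Fin.sign_cycleRange _
  have e := Matrix.det_permute' σ M
  rw [hs] at e
  let B : Matrix (Fin K) (Fin (n + 1)) ℝ := Matrix.of fun _ l => if l = 0 then 1 else 0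
  let C : Matrix (Fin (n + 1)) (Fin K) ℝ := Matrix.of b
  let D : Matrix (Fin (n + 1)) (Fin (n + 1)) ℝ := Matrix.of fun l =>
    (Fin.cons (a l) (x l) : Fin (n + 1) → ℝ)
  let e' : Fin K ⊕ Fin (n + 1) ≃ Fin (K + n + 1) := finSumFinEquiv
  have e2 : M.submatrix id σ = (Matrix.fromBlocks 1 B C D).submatrix e'.symm e'.symm := by
    have e3 : (M.submatrix id σ).submatrix e' e' = Matrix.fromBlocks 1 B C D := by
      ext i j
      rcases i with m | l
      · have hr : M (e' (Sum.inl m)) = (Fin.cons 1 (Fin.append (Pi.single m 1) 0 : Fin (K + n) → ℝ) :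
          Fin (K + n + 1) → ℝ) := h1 m
        rcases j with m' | l'
        · have hc : σ (e' (Sum.inl m')) = Fin.succ (Fin.castAdd n m') := cyc_lt m'
          simp only [Matrix.submatrix_apply, id, hr, hc, Matrix.fromBlocks_apply₁₁, Fin.cons_succ,
            Fin.append_left]
          rw [Matrix.one_apply, Pi.single_apply]
          by_cases h : m = m'
          · rw [if_pos h, if_pos h.symm]
          · rw [if_neg h, if_neg (Ne.symm h)]
        · refine Fin.cases ?_ (fun l' => ?_) l'
          · have hc : σ (e' (Sum.inr 0)) = 0 := cyc_eq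
            simp only [Matrix.submatrix_apply, id, hr, hc, Matrix.fromBlocks_apply₁₂, Fin.cons_zero,
              B, Matrix.of_apply, if_true]
          · have hc : σ (e' (Sum.inr (Fin.succ l'))) = Fin.succ (Fin.natAdd K l') := cyc_gt l'
            simp only [Matrix.submatrix_apply, id, hr, hc, Matrix.fromBlocks_apply₁₂, Fin.cons_succ,
              B, Matrix.of_apply, Fin.append_right, Fin.succ_ne_zero, if_false, Pi.zero_apply]
      · have hr : M (e' (Sum.inr l)) = (Fin.cons (a l) (Fin.append (b l) (x l) : Fin (K + n) → ℝ) :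
          Fin (K + n + 1) → ℝ) := h2 l
        rcases j with m' | l'
        · have hc : σ (e' (Sum.inl m')) = Fin.succ (Fin.castAdd n m') := cyc_lt m'
          simp only [Matrix.submatrix_apply, id, hr, hc, Matrix.fromBlocks_apply₂₁, Fin.cons_succ,
            Fin.append_left, C, Matrix.of_apply]
        · refine Fin.cases ?_ (fun l' => ?_) l'
          · have hc : σ (e' (Sum.inr 0)) = 0 := cyc_eq
            simp only [Matrix.submatrix_apply, id, hr, hc, Matrix.fromBlocks_apply₂₂, Fin.cons_zero,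
              D, Matrix.of_apply]
          · have hc : σ (e' (Sum.inr (Fin.succ l'))) = Fin.succ (Fin.natAdd K l') := cyc_gt l'
            simp only [Matrix.submatrix_apply, id, hr, hc, Matrix.fromBlocks_apply₂₂, Fin.cons_succ,
              D, Matrix.of_apply, Fin.append_right]
    rw [← e3]
    ext i j
    simp
  rw [e2, Matrix.det_submatrix_equiv_self, Matrix.det_fromBlocks_one₁₁] at e
  have e4 : D - C * B = Matrix.of fun l : Fin (n + 1) =>
      (Fin.cons (a l - ∑ m, b l m) (x l) : Fin (n + 1) → ℝ) := by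
    ext l l'
    refine Fin.cases ?_ (fun l' => ?_) l'
    · simp [D, C, B, Matrix.mul_apply]
    · simp [D, C, B, Matrix.mul_apply]
  rw [e4] at e
  rw [e]
  push_cast
  rw [← mul_assoc, ← mul_pow]
  norm_num

theorem ss_pos (K : ℕ) (j : Fin 4) : 0 < ss K j := by
  have h : ∀ m : Fin K, 0 ≤ gg j m := by
    intro m
    have hc : (0 : ℝ) ≤ cc m := by unfold cc; positivity
    fin_cases j <;> simp [gg, hc]
  unfold ss
  have := Finset.sum_nonneg fun (m : Fin K) (_ : m ∈ Finset.univ) => h m
  linarith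

theorem ss_sum (K : ℕ) (j : Fin 4) : 1 - ∑ m : Fin K, (ss K j)⁻¹ * gg j m = (ss K j)⁻¹ := by
  rw [← Finset.mul_sum]
  have h1 : ∑ m : Fin K, gg j m = ss K j - 1 := by unfold ss; ring
  rw [h1]
  have := (ss_pos K j).ne'
  field_simp
  ring

/-- PAIR -/
theorem t_PAIR : S_PAIR := by
  intro K
  refine ⟨(-1) ^ K, neg_one_pow_eq_or ℝ K, ?_, ?_⟩
  · intro i j hij
    have hi := ss_pos K i
    have hj := ss_pos K j
    refine ⟨(ss K i)⁻¹ * (ss K j)⁻¹, by positivity, ?_⟩
    have h := block K 1 (Matrix.of fun l : Fin (K + 1 + 1) => (Fin.cons 1 (famP K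
      ((Fin.append (fun m : Fin K => Fin.castAdd 4 m) ![Fin.natAdd K i, Fin.natAdd K j] :
          Fin (K + 2) → Fin (K + 4)) l)) : Fin (K + 1 + 1) → ℝ)) (fun _ => 1)
      (fun l m => (ss K (![i, j] l))⁻¹ * gg (![i, j] l) m)
      (fun l _ => (ss K (![i, j] l))⁻¹ * (((![i, j] l : ℕ) : ℝ) + 1)) ?_ ?_
    · rw [orient, h, Matrix.det_fin_two]
      simp only [Matrix.of_apply, Fin.cons_zero, ss_sum]
      have e1 : ∀ (u : ℝ) (v : Fin 1 → ℝ), (Fin.cons u v : Fin 2 → ℝ) 1 = v 0 := fun u v => rfl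
      rw [e1, e1]
      simp only [Matrix.cons_val_zero, Matrix.cons_val_one]
      ring
    · intro m
      have e1 : (Fin.append (fun m : Fin K => Fin.castAdd 4 m) ![Fin.natAdd K i, Fin.natAdd K j] :
          Fin (K + 2) → Fin (K + 4)) (Fin.castAdd 2 m) = Fin.castAdd 4 m := Fin.append_left _ _ _
      change (Fin.cons 1 (famP K ((Fin.append (fun m : Fin K => Fin.castAdd 4 m)
        ![Fin.natAdd K i, Fin.natAdd K j] : Fin (K + 2) → Fin (K + 4)) (Fin.castAdd 2 m))) :
          Fin (K + 1 + 1) → ℝ) = _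
      rw [e1]
      have e2 : famP K (Fin.castAdd 4 m) = apx m := Fin.append_left _ _ _
      rw [e2]
      rfl
    · intro l
      have e1 : (Fin.append (fun m : Fin K => Fin.castAdd 4 m) ![Fin.natAdd K i, Fin.natAdd K j] :
          Fin (K + 2) → Fin (K + 4)) (Fin.natAdd K l) = Fin.natAdd K (![i, j] l) := by
        rw [Fin.append_right]
        fin_cases l <;> rfl
      change (Fin.cons 1 (famP K ((Fin.append (fun m : Fin K => Fin.castAdd 4 m)
        ![Fin.natAdd K i, Fin.natAdd K j] : Fin (K + 2) → Fin (K + 4)) (Fin.natAdd K l))) :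
          Fin (K + 1 + 1) → ℝ) = _
      rw [e1]
      have e2 : famP K (Fin.natAdd K (![i, j] l)) = emb (![i, j] l)
        (fun _ : Fin 1 => (((![i, j] l : Fin 4) : ℕ) : ℝ) + 1) := Fin.append_right _ _ _
      rw [e2]
      rfl
  · intro X r
    refine ⟨![r 0 - ∑ m : Fin K, r (Fin.succ (Fin.castAdd 2 m)), r (Fin.natAdd K 1),
      r (Fin.natAdd K 2)], (-1) ^ K, rfl, ?_, ?_⟩
    · intro L hL
      have hL' : ∀ m : Fin K, L (Fin.succ (Fin.castAdd 2 m)) = - L 0 := by
        intro m
        have h1 := hL m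
        rw [dotProduct, Fin.sum_univ_succ, Fin.sum_univ_add] at h1
        have e1 : ∀ m' : Fin K, row (apx (q := 2) m) (Fin.succ (Fin.castAdd 2 m')) =
            if m' = m then 1 else 0 := by
          intro m'
          rw [row, Fin.cons_succ, apx, Fin.append_left, Pi.single_apply]
        have e2 : ∀ l : Fin 2, row (apx (q := 2) m) (Fin.succ (Fin.natAdd K l)) = 0 := by
          intro l
          rw [row, Fin.cons_succ, apx, Fin.append_right]
          rfl
        have e3 : row (apx (q := 2) m) 0 = 1 := rfl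
        simp only [e1, e2, e3, mul_zero, Finset.sum_const_zero, add_zero, mul_one, mul_ite,
          Finset.sum_ite_eq', Finset.mem_univ, if_true] at h1
        linarith
      rw [dotProduct, Fin.sum_univ_succ, Fin.sum_univ_add]
      simp only [hL']
      have e4 : ![L 0, L (Fin.natAdd K 1), L (Fin.natAdd K 2)] ⬝ᵥ
          ![r 0 - ∑ m : Fin K, r (Fin.succ (Fin.castAdd 2 m)), r (Fin.natAdd K 1),
            r (Fin.natAdd K 2)] = L 0 * (r 0 - ∑ m : Fin K, r (Fin.succ (Fin.castAdd 2 m))) +
            L (Fin.natAdd K 1) * r (Fin.natAdd K 1) + L (Fin.natAdd K 2) * r (Fin.natAdd K 2) := by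
        rw [dotProduct, Fin.sum_univ_three]
        rfl
      rw [e4, Fin.sum_univ_two, ← Finset.mul_sum]
      have e5 : (Fin.succ (Fin.natAdd K (0 : Fin 2)) : Fin (K + 2 + 1)) =
          (Fin.natAdd K (1 : Fin 3) : Fin (K + 3)) := rfl
      have e6 : (Fin.succ (Fin.natAdd K (1 : Fin 2)) : Fin (K + 2 + 1)) =
          (Fin.natAdd K (2 : Fin 3) : Fin (K + 3)) := rfl
      rw [e5, e6]
      ring
    · intro i j hij
      have hi := ss_pos K i
      have hj := ss_pos K j
      refine ⟨(ss K i)⁻¹ * (ss K j)⁻¹, by positivity, ?_⟩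
      let f : Fin (K + 2) → Fin (K + 4) :=
        Fin.append (fun m : Fin K => Fin.castAdd 4 m) ![Fin.natAdd K i, Fin.natAdd K j]
      have f1 : ∀ m, f (Fin.castAdd 2 m) = Fin.castAdd 4 m := fun m => Fin.append_left _ _ _
      have f2 : f (Fin.natAdd K 0) = Fin.natAdd K i := Fin.append_right _ _ _
      have f3 : f (Fin.natAdd K 1) = Fin.natAdd K j := Fin.append_right _ _ _
      let M : Matrix (Fin (K + 2 + 1)) (Fin (K + 2 + 1)) ℝ :=
        Matrix.of (Fin.snoc (α := fun _ => Fin (K + 3) → ℝ) (fun l : Fin (K + 2) =>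
          row (pts (K := K) X (f l))) r)
      have M1 : ∀ l : Fin (K + 2), M (Fin.castSucc l) = row (pts (K := K) X (f l)) := by
        intro l
        change (Fin.snoc (α := fun _ => Fin (K + 3) → ℝ) (fun l : Fin (K + 2) =>
          row (pts (K := K) X (f l))) r : Fin (K + 2 + 1) → Fin (K + 3) → ℝ) (Fin.castSucc l) = _
        rw [Fin.snoc_castSucc]
      have M2 : M (Fin.last _) = r := by
        change (Fin.snoc (α := fun _ => Fin (K + 3) → ℝ) (fun l : Fin (K + 2) =>
          row (pts (K := K) X (f l))) r : Fin (K + 2 + 1) → Fin (K + 3) → ℝ) (Fin.last _) = _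
        rw [Fin.snoc_last]
      have h := block K 2 M ![1, 1, r 0]
        ![fun m => (ss K i)⁻¹ * gg i m, fun m => (ss K j)⁻¹ * gg j m,
          fun m => r (Fin.succ (Fin.castAdd 2 m))]
        ![fun l => (ss K i)⁻¹ * X i l, fun l => (ss K j)⁻¹ * X j l,
          fun l => r (Fin.succ (Fin.natAdd K l))] ?_ ?_
      · have h0 : hdet (k := K + 1) (pts (K := K) X) r f = M.det := rfl
        change hdet (k := K + 1) (pts (K := K) X) r f = _
        rw [h0, h, Matrix.det_fin_three, Matrix.det_fin_three]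
        have c1 : ∀ (u : ℝ) (v : Fin 2 → ℝ), (Fin.cons u v : Fin 3 → ℝ) 1 = v 0 := fun u v => rfl
        have c2 : ∀ (u : ℝ) (v : Fin 2 → ℝ), (Fin.cons u v : Fin 3 → ℝ) 2 = v 1 := fun u v => rfl
        have e5 : (Fin.succ (Fin.natAdd K (0 : Fin 2)) : Fin (K + 2 + 1)) =
            (Fin.natAdd K (1 : Fin 3) : Fin (K + 3)) := rfl
        have e6 : (Fin.succ (Fin.natAdd K (1 : Fin 2)) : Fin (K + 2 + 1)) =
            (Fin.natAdd K (2 : Fin 3) : Fin (K + 3)) := rfl
        simp only [Matrix.of_apply, Fin.cons_zero, c1, c2, Matrix.cons_val_zero,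
          Matrix.cons_val_one, Matrix.cons_val_two, Matrix.head_cons,
          Matrix.tail_cons, ss_sum, e5, e6]
        ring
      · intro m
        have h0 : (Fin.castAdd 3 m : Fin (K + 3)) = Fin.castSucc (Fin.castAdd 2 m) := rfl
        rw [h0, M1, f1]
        have e2 : pts (K := K) X (Fin.castAdd 4 m) = apx m := Fin.append_left _ _ _
        rw [e2]
        rfl
      · intro l
        have hp : ∀ j : Fin 4, pts (K := K) X (Fin.natAdd K j) = emb j (X j) := fun j =>
          Fin.append_right _ _ _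
        fin_cases l
        · have h0 : (Fin.natAdd K (0 : Fin 3) : Fin (K + 3)) =
            Fin.castSucc (Fin.natAdd K (0 : Fin 2)) := rfl
          change M (Fin.natAdd K (0 : Fin 3) : Fin (K + 3)) = _
          rw [h0, M1, f2, hp]
          rfl
        · have h0 : (Fin.natAdd K (1 : Fin 3) : Fin (K + 3)) =
            Fin.castSucc (Fin.natAdd K (1 : Fin 2)) := rfl
          change M (Fin.natAdd K (1 : Fin 3) : Fin (K + 3)) = _
          rw [h0, M1, f3, hp]
          rfl
        · have h0 : (Fin.natAdd K (2 : Fin 3) : Fin (K + 3)) = Fin.last _ := rfl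
          change M (Fin.natAdd K (2 : Fin 3) : Fin (K + 3)) = _
          rw [h0, M2]
          change r = (Fin.cons (r 0) (Fin.append (fun m => r (Fin.succ (Fin.castAdd 2 m)))
            (fun l => r (Fin.succ (Fin.natAdd K l))) : Fin (K + 2) → ℝ) : Fin (K + 2 + 1) → ℝ)
          funext t
          refine Fin.cases rfl (fun t => ?_) t
          rw [Fin.cons_succ]
          refine Fin.addCases (fun m => ?_) (fun l => ?_) t
          · rw [Fin.append_left]
          · rw [Fin.append_right]

end Pool.Agent.V5helper1.SE
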